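import Pool.Agent.H73.TS.TargetsC
import Pool.Agent.H34.TS.DEN

/-!
Totally separable packings: the upper bound in every dimension.
-/

open MeasureTheory Set Metric Filter
open scoped ENNReal Topology

namespace Pool.Agent.H69.TS

open Pool.Agent.H73.TS

theorem ellPar_mono {d : ℕ} (w : Fin d → E d) (v : E d) {I J : Finset (Fin d)} (h : I ⊆ J) :
    EllPar w v J ⊆ EllPar w v I := by
  rintro y ⟨a, h1, h2, rfl⟩
  refine ⟨a, ?_, ?_, rfl⟩
  · exact (Finset.sum_le_sum_of_subset_of_nonneg h fun i _ _ => sq_nonneg _).trans h1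
  · intro i hi
    by_cases hJ : i ∈ J
    · have h3 : a i ^ 2 ≤ ∑ i ∈ J, a i ^ 2 :=
        Finset.single_le_sum (f := fun i => a i ^ 2) (fun i _ => sq_nonneg _) hJ
      have h4 : |a i| ^ 2 ≤ (1 / 2) ^ 2 := by
        rw [sq_abs]
        linarith
      exact (abs_le_of_sq_le_sq h4 (by norm_num) |> fun h => by rwa [abs_abs] at h)
    · exact h2 i hJ

/-- the width of the product of an ellipsoid and a parallelotope -/
theorem width {d : ℕ} (w : Fin d → E d) (v : E d) (I : Finset (Fin d)) (L : E d ≃L[ℝ] E d)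
    (hL : ∀ i, L (w i) = EuclideanSpace.single i (1 : ℝ)) (K : Set (E d))
    (hW : AsWide (EllPar w v I) K) (a : E d) :
    ∃ x ∈ K, ∃ y ∈ K, Real.sqrt (∑ i ∈ I, a i ^ 2) + ((∑ i, |a i|) - ∑ i ∈ I, |a i|) ≤
      inner ℝ a (L x) - inner ℝ a (L y) := by
  classical
  set f : E d →L[ℝ] ℝ := (innerSL ℝ a).comp (L : E d →L[ℝ] E d) with hf
  have hfx : ∀ x, f x = inner ℝ a (L x) := fun x => rfl
  have hfw : ∀ i, f (w i) = a i := by
    intro i
    rw [hfx, hL, EuclideanSpace.inner_single_right]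
    simp
  set A : ℝ := Real.sqrt (∑ i ∈ I, a i ^ 2) with hA
  have hA0 : 0 ≤ A := Real.sqrt_nonneg _
  have hs0 : 0 ≤ ∑ i ∈ I, a i ^ 2 := Finset.sum_nonneg fun i _ => sq_nonneg _
  have hA2 : A ^ 2 = ∑ i ∈ I, a i ^ 2 := Real.sq_sqrt hs0
  set al : Fin d → ℝ := fun i => if i ∈ I then a i / (2 * A) else SignType.sign (a i) / 2 with hal
  have hsum : ∀ s : ℝ, f (v + ∑ i, (1 / 2 + s * al i) • w i) =
      f v + ∑ i, (1 / 2 + s * al i) * a i := by
    intro s
    rw [map_add, map_sum]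
    congr 1
    refine Finset.sum_congr rfl fun i _ => ?_
    rw [map_smul, hfw, smul_eq_mul]
  have h1 : ∑ i ∈ I, al i ^ 2 ≤ 1 / 4 := by
    have h2 : ∑ i ∈ I, al i ^ 2 = (∑ i ∈ I, a i ^ 2) / (2 * A) ^ 2 := by
      rw [Finset.sum_div]
      refine Finset.sum_congr rfl fun i hi => ?_
      rw [hal]
      dsimp only
      rw [if_pos hi, div_pow]
    rw [h2, ← hA2]
    rcases eq_or_lt_of_le hA0 with h0 | h0
    · rw [← h0]; norm_num
    · rw [mul_pow, div_le_iff₀ (by positivity)]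
      nlinarith
  have h3 : ∀ i, i ∉ I → |al i| ≤ 1 / 2 := by
    intro i hi
    rw [hal]
    dsimp only
    rw [if_neg hi, abs_div, abs_of_pos (by norm_num : (0 : ℝ) < 2)]
    have h4 : |((SignType.sign (a i) : SignType) : ℝ)| ≤ 1 := by
      rcases lt_trichotomy (a i) 0 with h | h | h
      · rw [sign_neg h]; simp
      · rw [h]; simp
      · rw [sign_pos h]; simp
    linarith
  have hp : v + ∑ i, (1 / 2 + 1 * al i) • w i ∈ EllPar w v I := by
    refine ⟨al, h1, h3, ?_⟩
    congr 1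
    exact Finset.sum_congr rfl fun i _ => by rw [one_mul]
  have hq : v + ∑ i, (1 / 2 + (-1) * al i) • w i ∈ EllPar w v I := by
    refine ⟨fun i => -al i, ?_, ?_, ?_⟩
    · simpa using h1
    · intro i hi
      rw [abs_neg]
      exact h3 i hi
    · congr 1
      exact Finset.sum_congr rfl fun i _ => by rw [neg_one_mul]
  obtain ⟨x, hx, y, hy, hxy⟩ := hW f _ hp _ hq
  refine ⟨x, hx, y, hy, ?_⟩
  rw [← hfx, ← hfx]
  refine le_trans (le_of_eq ?_) hxy
  rw [hsum, hsum]
  have h5 : f v + ∑ i, (1 / 2 + 1 * al i) * a i - (f v + ∑ i, (1 / 2 + (-1) * al i) * a i) =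
      ∑ i, 2 * (al i * a i) := by
    rw [add_sub_add_left_eq_sub, ← Finset.sum_sub_distrib]
    exact Finset.sum_congr rfl fun i _ => by ring
  rw [h5, ← Finset.sum_add_sum_compl I (fun i => 2 * (al i * a i)),
    ← Finset.sum_add_sum_compl I (fun i => |a i|), add_sub_cancel_left]
  congr 1
  · have h6 : ∑ i ∈ I, 2 * (al i * a i) = (∑ i ∈ I, a i ^ 2) / A := by
      rw [Finset.sum_div]
      refine Finset.sum_congr rfl fun i hi => ?_
      rw [hal]
      dsimp only
      rw [if_pos hi]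
      rcases eq_or_lt_of_le hA0 with h0 | h0
      · rw [← h0]; simp
      · field_simp
    rw [h6, ← hA2]
    rcases eq_or_lt_of_le hA0 with h0 | h0
    · rw [← h0]; simp
    · rw [sq, mul_div_assoc, div_self h0.ne', mul_one]
  · refine Finset.sum_congr rfl fun i hi => ?_
    rw [Finset.mem_compl] at hi
    rw [hal]
    dsimp only
    rw [if_neg hi, div_mul_eq_mul_div, sign_mul_self, mul_div_cancel₀]
    norm_num

theorem upc (hWIN : T_WIN) (hCUC : T_CUC) (hCUW : T_CUW) (hGRD : T_GRD) (hPAR : T_PAR) :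
    T_UPC := by
  classical
  intro M hM hC d I w v K T hd hI hw hK hKc hKi hWd hTS
  have hId : I.card ≤ d := by
    have := Finset.card_le_univ I
    rwa [Fintype.card_fin] at this
  obtain ⟨J, hIJ, hJ⟩ := Finset.exists_superset_card_eq (s := I) (n := max I.card 2)
    (le_max_left _ _) (by rw [Fintype.card_fin]; exact max_le hId hd)
  set k := max I.card 2 with hk
  have hk2 : 2 ≤ k := le_max_right _ _
  have hkM : k ≤ M := max_le hI hM
  have hkd : k ≤ d := max_le hId hd
  have hWJ : AsWide (EllPar w v J) K := fun f p hp q hq =>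
    hWd f p (ellPar_mono w v hIJ hp) q (ellPar_mono w v hIJ hq)
  let σ : Fin k ↪o Fin d := J.orderEmbOfFin hJ
  have hmap : Finset.univ.map σ.toEmbedding = J := by
    ext i
    rw [Finset.mem_map]
    constructor
    · rintro ⟨r, -, rfl⟩
      exact Finset.orderEmbOfFin_mem J hJ r
    · intro hi
      have h1 : i ∈ Set.range (J.orderEmbOfFin hJ) := by
        rw [Finset.range_orderEmbOfFin]; exact hi
      obtain ⟨r, hr⟩ := h1
      exact ⟨r, Finset.mem_univ _, hr⟩
  have hsum : ∀ g : Fin d → ℝ, ∑ r, g (σ r) = ∑ i ∈ J, g i := by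
    intro g
    rw [← hmap, Finset.sum_map]
    rfl
  obtain ⟨L, hL, hvol, -⟩ := hPAR d w v hw
  have hwc : WCount d k σ L T := by
    refine hWIN d k σ L K T (hC k hk2 hkM) σ.injective hK hKc hKi ?_ hTS
    intro a
    obtain ⟨x, hx, y, hy, h⟩ := width w v J L hL K hWJ a
    refine ⟨x, hx, y, hy, ?_⟩
    rw [hsum (fun i => a i ^ 2), hsum (fun i => |a i|)]
    exact h
  have hlim := hGRD d L K T (by omega) hK (by
    intro ε hε
    obtain ⟨N, hN, h1⟩ := hCUW k ε hε
    refine ⟨N, hN, fun z S hS hz => ?_⟩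
    refine (hCUC d k σ L T N z S σ.injective hN hwc hS hz).trans ?_
    refine (mul_le_mul_of_nonneg_left h1 (by positivity)).trans (le_of_eq ?_)
    have h2 : (N : ℝ) ^ d = (N : ℝ) ^ (d - k) * (N : ℝ) ^ k := by
      rw [← pow_add]; congr 1; omega
    rw [h2]; ring)
  have hden := Pool.Agent.H34.TS.den' d K T _ (by omega) ENNReal.ofReal_ne_top hK hlim
  rw [mul_comm] at hvol
  rw [ENNReal.eq_inv_of_mul_eq_one_left hvol, ← div_eq_mul_inv] at hden
  exact hden

end Pool.Agent.H69.TS
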